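import Mathlib
import Pool.Agent.H60R3.RsDefs
import Pool.Agent.Y397.RS.Fin

/-!
# Products of symmetric groups: `r_s` is one or uncountable, and which of the two

For a countable family `X` of countable sets let `G = ∏ Sym(X i)` with the topology of pointwise
convergence (`Pool.Agent.Y397.RS.ptop X`), a separable metrizable group. If some `X i` is infinite
and only finitely many of the `X i` are finite with at least two elements, then `G` is not discrete
and its topology is generated by ONE sequence, `r_s(G) = 1`; this covers all the powers `Sym(ℕ)^n`,
`n ≥ 1`, and the infinite power `Sym(ℕ)^ℕ`. If infinitely many of the `X i` are finite with at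
least two elements, then `r_s(G)` is uncountable.

The second statement holds for all separable metrizable groups which have a homomorphism onto
an uncountable abelian group, and for every non-discrete metrizable group `r_s` is `1` or
uncountable.

Sketch of the first statement. In a group topology `σ` on `Sym(ℕ)^ι` let the sequence
`z_k = (v_0 in the coordinates of index ≥ k, 1 in the other ones)` converge to `1`, where `v_0` is
an involution with infinitely many pairs and infinitely many fixed points. Gluing together windows
of coordinates one sees that each neighbourhood of `1` contains, for some `n`, all the elements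
which are trivial in the coordinates of index `< n`, since every permutation is a product of four
conjugates of `v_0`. The finitely many other coordinates are dealt with one by one, as for
`Sym(ℕ)`. Countably many convergent sequences are merged into one. For the lower bound one adds to
the topology a dense normal subgroup of uncountable index as an open set.
-/

namespace Pool.Agent.Results.MP_412c32_gt.SymmetricProducts

open Pool.Agent.H60R3 Pool.Agent.Y397.RS

/-- **Main theorem.** -/
theorem result :
    -- (1) a dichotomy for all non-discrete metrizable groups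
    (∀ (G : Type) [Group G] [τ : TopologicalSpace G] [IsTopologicalGroup G]
      [TopologicalSpace.MetrizableSpace G], ¬ DiscreteTopology G →
      rs τ = 1 ∨ Cardinal.aleph0 < rs τ) ∧
    -- (2) separable metrizable groups with an uncountable abelian quotient
    (∀ (G : Type) [Group G] [τ : TopologicalSpace G] [IsTopologicalGroup G]
      [TopologicalSpace.MetrizableSpace G] [TopologicalSpace.SeparableSpace G]
      (A : Type) [CommGroup A] (f : G →* A), Function.Surjective f → Uncountable A →
      Cardinal.aleph0 < rs τ) ∧
    -- (3) products of symmetric groups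
    (∀ (ι : Type) (X : ι → Type) [Countable ι] [∀ i, Countable (X i)],
      @IsTopologicalGroup (∀ i, Equiv.Perm (X i)) (ptop X) _ ∧
      @TopologicalSpace.MetrizableSpace _ (ptop X) ∧
      @TopologicalSpace.SeparableSpace _ (ptop X) ∧
      ((∃ i, Infinite (X i)) → ¬ @DiscreteTopology _ (ptop X)) ∧
      ((∃ i, Infinite (X i)) → {i | Finite (X i) ∧ Nontrivial (X i)}.Finite →
        rs (ptop X) = 1) ∧
      ({i | Finite (X i) ∧ Nontrivial (X i)}.Infinite → Cardinal.aleph0 < rs (ptop X))) ∧
    -- (4) all finite powers and the countably infinite power of `Sym(ℕ)`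
    (∀ (ι : Type) [Countable ι] [Nonempty ι], rs (ptop (fun _ : ι => ℕ)) = 1) ∧
    -- (5) the answer to the question
    ¬ ∀ (G : Type) [Group G] [τ : TopologicalSpace G] [IsTopologicalGroup G]
      [TopologicalSpace.MetrizableSpace G] [TopologicalSpace.SeparableSpace G],
      ¬ DiscreteTopology G → rs τ = Cardinal.continuum := by
  have h3 : ∀ (ι : Type) (X : ι → Type) [Countable ι] [∀ i, Countable (X i)],
      @IsTopologicalGroup (∀ i, Equiv.Perm (X i)) (ptop X) _ ∧
      @TopologicalSpace.MetrizableSpace _ (ptop X) ∧
      @TopologicalSpace.SeparableSpace _ (ptop X) ∧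
      ((∃ i, Infinite (X i)) → ¬ @DiscreteTopology _ (ptop X)) ∧
      ((∃ i, Infinite (X i)) → {i | Finite (X i) ∧ Nontrivial (X i)}.Finite →
        rs (ptop X) = 1) ∧
      ({i | Finite (X i) ∧ Nontrivial (X i)}.Infinite → Cardinal.aleph0 < rs (ptop X)) := by
    intro ι X _ _
    exact ⟨isTopologicalGroup, metrizable, separable, fun ⟨_, h⟩ => not_discrete h,
      fun h h' => rs_eq_one h' h, aleph0_lt_rs⟩
  have h4 : ∀ (ι : Type) [Countable ι] [Nonempty ι], rs (ptop (fun _ : ι => ℕ)) = 1 := by
    intro ι _ hι
    refine (h3 ι fun _ => ℕ).2.2.2.2.1 ⟨hι.some, inferInstance⟩ ?_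
    have e : {i : ι | Finite ℕ ∧ Nontrivial ℕ} = ∅ := by
      ext i
      simp only [Set.mem_ofPred_eq, Set.mem_empty_iff_false, iff_false, not_and]
      intro h
      exact absurd h (not_finite_iff_infinite.2 inferInstance)
    rw [e]
    exact Set.finite_empty
  refine ⟨?_, ?_, h3, h4, ?_⟩
  · intro G _ τ hτ _ hd
    letI := TopologicalSpace.metrizableSpaceMetric G
    exact dichotomy hτ inferInstance hd
  · intro G _ τ hτ _ hs A _ f hf hA
    letI := TopologicalSpace.metrizableSpaceMetric G
    exact aleph0_lt hτ inferInstance inferInstance hs f hf (not_countable_iff.2 hA)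
  · intro h
    obtain ⟨i1, i2, i3, i4, _, _⟩ := h3 Unit fun _ => ℕ
    have h1 := @h (Unit → Equiv.Perm ℕ) _ (ptop (fun _ : Unit => ℕ)) i1 i2 i3
      (i4 ⟨(), inferInstance⟩)
    rw [h4 Unit] at h1
    have h2 := Cardinal.nat_lt_continuum 1
    rw [Nat.cast_one, ← h1] at h2
    exact lt_irrefl _ h2

end Pool.Agent.Results.MP_412c32_gt.SymmetricProducts
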